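import Mathlib

set_option autoImplicit false

namespace Pool.Agent.Results.MP_3821a3_co.PositiveCharacteristic

open MvPolynomial

universe u

/-- A finite hypergraph on the vertex type `V`, with edges indexed by `ι` (so repeated edges are
possible); every edge is a set of at least two vertices. -/
structure Hypergraph (V ι : Type) where
  /-- the edge with index `i` -/
  edge : ι → Finset V
  /-- every edge has at least two vertices -/
  two_le : ∀ i, 2 ≤ (edge i).card

section defs

variable {V ι : Type} [Fintype V] [DecidableEq V] [Fintype ι] {F : Type u} [Field F]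

/-- The edges (with multiplicity) contained in `X`. -/
def Hypergraph.edgesIn (H : Hypergraph V ι) (X : Finset V) : Finset ι :=
  Finset.univ.filter (fun i => H.edge i ⊆ X)

/-- The edge density `max_X |E(X)| / |X|` over nonempty vertex sets `X`. -/
noncomputable def Hypergraph.edgeDensity (H : Hypergraph V ι) : ℝ :=
  sSup {x : ℝ | ∃ X : Finset V, X.Nonempty ∧ x = ((H.edgesIn X).card : ℝ) / (X.card : ℝ)}

/-- The hypergraph polynomial with coefficients `a`. -/
noncomputable def Hypergraph.poly (H : Hypergraph V ι) (a : ι → V → F) : MvPolynomial V F :=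
  ∏ i, ∑ v ∈ H.edge i, C (a i v) * X v

/-- The coefficients are nonzero on the edges. -/
def Hypergraph.IsCoeff (H : Hypergraph V ι) (a : ι → V → F) : Prop :=
  ∀ i, ∀ v ∈ H.edge i, a i v ≠ 0

/-- Every edge carries two different coefficients. -/
def Hypergraph.FullyUnbalanced (H : Hypergraph V ι) (a : ι → V → F) : Prop :=
  ∀ i, ∃ u ∈ H.edge i, ∃ v ∈ H.edge i, a i u ≠ a i v

/-- The set `S(p)` of exponent vectors of top degree with nonzero coefficient. -/
noncomputable def topSupport (p : MvPolynomial V F) : Finset (V →₀ ℕ) :=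
  p.support.filter (fun α => (α.sum fun _ k => k) = p.totalDegree)

/-- The Alon-Tarsi number: the minimum over `α ∈ S(p)` of the largest entry of `α`, plus one. -/
noncomputable def alonTarsi (p : MvPolynomial V F) : ℕ :=
  sInf {k : ℕ | ∃ α ∈ topSupport p, k = (Finset.univ.sup fun v => α v) + 1}

end defs

/-! ### The Alon-Tarsi number of polynomials in the ideal of `q`-th powers -/

section general

variable {V : Type} [Fintype V] [DecidableEq V] {F : Type u} [Field F]

omit [DecidableEq V] [Fintype V] in
lemma topSupport_nonempty (p : MvPolynomial V F) (hp : p ≠ 0) : (topSupport p).Nonempty := by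
  classical
  have hne : p.support.Nonempty := by
    rwa [Finset.nonempty_iff_ne_empty, Ne, MvPolynomial.support_eq_empty]
  obtain ⟨α, hα, h⟩ := Finset.exists_mem_eq_sup p.support hne (fun s => s.sum fun _ e => e)
  refine ⟨α, ?_⟩
  rw [topSupport, Finset.mem_filter]
  exact ⟨hα, h.symm⟩

/-- The ideal generated by the `q`-th powers of the variables. -/
noncomputable def powIdeal (V : Type) (F : Type u) [Field F] (q : ℕ) :
    Ideal (MvPolynomial V F) :=
  Ideal.span ((fun s => monomial s (1 : F)) '' (Set.range fun v : V => Finsupp.single v q))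

omit [DecidableEq V] [Fintype V] in
lemma X_pow_mem (q : ℕ) (v : V) : (X v : MvPolynomial V F) ^ q ∈ powIdeal V F q := by
  rw [X_pow_eq_monomial]
  exact Ideal.subset_span ⟨_, ⟨v, rfl⟩, rfl⟩

omit [DecidableEq V] in
lemma le_alonTarsi (p : MvPolynomial V F) (hp : p ≠ 0) (q : ℕ) (hq : p ∈ powIdeal V F q) :
    q + 1 ≤ alonTarsi p := by
  classical
  rw [powIdeal, mem_ideal_span_monomial_image] at hq
  refine le_csInf ?_ ?_
  · obtain ⟨α, hα⟩ := topSupport_nonempty p hp
    exact ⟨_, α, hα, rfl⟩
  · rintro k ⟨α, hα, rfl⟩
    rw [topSupport, Finset.mem_filter] at hα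
    obtain ⟨s, ⟨v, rfl⟩, hs⟩ := hq α hα.1
    have h1 : q ≤ α v := by
      have := hs v
      simpa using this
    have h2 : α v ≤ Finset.univ.sup (fun v => α v) :=
      Finset.le_sup (f := fun v => α v) (Finset.mem_univ v)
    omega

lemma poly_ne_zero {ι : Type} [Fintype ι] (H : Hypergraph V ι) (a : ι → V → F)
    (ha : H.IsCoeff a) : H.poly a ≠ 0 := by
  rw [Hypergraph.poly, Finset.prod_ne_zero_iff]
  intro i _ h0
  have hne : (H.edge i).Nonempty := by
    rw [← Finset.card_pos]
    have := H.two_le i
    omega
  obtain ⟨v, hv⟩ := hne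
  have h1 := congrArg (eval (Pi.single v (1 : F))) h0
  rw [map_sum, map_zero, Finset.sum_eq_single v] at h1
  · simp only [map_mul, eval_C, eval_X, Pi.single_eq_same, mul_one] at h1
    exact ha i v hv h1
  · intro w _ hw
    simp [Pi.single_eq_of_ne hw]
  · intro h
    exact absurd hv h

/-- A product of more than `B (q - 1)` sums of elements from a list of `B` elements whose `q`-th
powers lie in an ideal is in the ideal. -/
lemma prod_sum_mem {R : Type u} [CommRing R] (I : Ideal R) {ι B : Type} [Fintype ι] [DecidableEq ι]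
    [Fintype B] [DecidableEq B] (y : B → R) (q : ℕ) (hy : ∀ b, y b ^ q ∈ I) (T : ι → Finset B)
    (hcard : Fintype.card B * (q - 1) < Fintype.card ι) :
    ∏ i, ∑ b ∈ T i, y b ∈ I := by
  classical
  rw [Finset.prod_univ_sum]
  refine Ideal.sum_mem _ (fun x _ => ?_)
  have hmul : (Finset.univ : Finset B).card * (q - 1) < (Finset.univ : Finset ι).card := by
    rwa [Finset.card_univ, Finset.card_univ]
  obtain ⟨b, _, hb⟩ := Finset.exists_lt_card_fiber_of_mul_lt_card_of_maps_to
    (f := x) (fun a _ => Finset.mem_univ (x a)) hmul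
  rw [← Finset.prod_filter_mul_prod_filter_not Finset.univ (fun i => x i = b)]
  refine Ideal.mul_mem_right _ _ ?_
  have h1 : ∏ i ∈ Finset.univ.filter (fun i => x i = b), y (x i)
      = y b ^ (Finset.univ.filter (fun i => x i = b)).card := by
    rw [Finset.prod_congr rfl (g := fun _ => y b)]
    · rw [Finset.prod_const]
    · intro i hi
      rw [(Finset.mem_filter.1 hi).2]
  rw [h1]
  obtain ⟨c, hc⟩ : ∃ c, (Finset.univ.filter (fun i => x i = b)).card = q + c :=
    ⟨(Finset.univ.filter (fun i => x i = b)).card - q, by omega⟩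
  rw [hc, pow_add]
  exact Ideal.mul_mem_right _ _ (hy b)

end general

/-! ### The construction -/

section construction

/-- The hypergraph on `(r + 1) × M` vertices whose edges are the unions of blocks containing the
block `none`. -/
noncomputable def blocks (r M : ℕ) (hM : 2 ≤ M) :
    Hypergraph (Option (Fin r) × Fin M) (Finset (Fin r)) where
  edge T := Finset.insertNone T ×ˢ (Finset.univ : Finset (Fin M))
  two_le T := by
    rw [Finset.card_product, Finset.card_insertNone, Finset.card_univ, Fintype.card_fin]
    nlinarith [Nat.zero_le (T.card * M)]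

lemma blocks_injective (r M : ℕ) (hM : 2 ≤ M) : Function.Injective (blocks r M hM).edge := by
  intro T T' h
  simp only [blocks] at h
  have h1 : Finset.insertNone T = Finset.insertNone T' := by
    ext b
    have h2 := Finset.ext_iff.1 h (b, ⟨0, by omega⟩)
    simpa [Finset.mem_product] using h2
  exact Finset.insertNone.injective h1

lemma blocks_density (r M : ℕ) (hM : 2 ≤ M) :
    (blocks r M hM).edgeDensity ≤ 2 ^ r / M := by
  classical
  have hM0 : (0 : ℝ) < M := by
    have : 0 < M := by omega
    exact_mod_cast this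
  refine csSup_le ?_ ?_
  · refine ⟨_, Finset.univ, ?_, rfl⟩
    exact ⟨(none, ⟨0, by omega⟩), Finset.mem_univ _⟩
  · rintro x ⟨X, hX, rfl⟩
    by_cases hE : ((blocks r M hM).edgesIn X).Nonempty
    · obtain ⟨T, hT⟩ := hE
      rw [Hypergraph.edgesIn, Finset.mem_filter] at hT
      have h1 : M ≤ X.card := by
        refine le_trans ?_ (Finset.card_le_card hT.2)
        simp only [blocks]
        rw [Finset.card_product, Finset.card_insertNone, Finset.card_univ, Fintype.card_fin]
        nlinarith [Nat.zero_le (T.card * M)]
      have h2 : ((blocks r M hM).edgesIn X).card ≤ 2 ^ r := by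
        calc _ ≤ (Finset.univ : Finset (Finset (Fin r))).card :=
              Finset.card_le_card (Finset.subset_univ _)
          _ = 2 ^ r := by rw [Finset.card_univ, Fintype.card_finset, Fintype.card_fin]
      have h1' : (M : ℝ) ≤ X.card := by exact_mod_cast h1
      have h2' : (((blocks r M hM).edgesIn X).card : ℝ) ≤ 2 ^ r := by exact_mod_cast h2
      exact div_le_div₀ (by positivity) h2' hM0 h1'
    · rw [Finset.not_nonempty_iff_eq_empty] at hE
      rw [hE]
      simp only [Finset.card_empty, Nat.cast_zero, zero_div]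
      positivity

end construction

/-- **Q1 fails in every field of positive characteristic with at least three elements**, and the
Alon-Tarsi number of fully unbalanced hypergraph polynomials is not bounded by any function of the
edge density there, even for hypergraphs without repeated edges. -/
theorem result (F : Type u) [Field F] (p : ℕ) (hp : p ≠ 0) [CharP F p]
    (hF : ∃ a : F, a ≠ 0 ∧ a ≠ 1) (N : ℕ) (δ : ℝ) (hδ : 0 < δ) :
    ∃ (V ι : Type) (_ : Fintype V) (_ : DecidableEq V) (_ : Fintype ι)
      (H : Hypergraph V ι) (a : ι → V → F),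
      Function.Injective H.edge ∧ H.IsCoeff a ∧ H.FullyUnbalanced a ∧
      H.edgeDensity ≤ δ ∧
      2 * ⌈H.edgeDensity⌉₊ + 1 + N < alonTarsi (H.poly a) := by
  classical
  obtain ⟨a0, ha0, ha1⟩ := hF
  have hprime : Fact p.Prime := ⟨(CharP.char_is_prime_or_zero F p).resolve_right hp⟩
  -- parameters
  set q := p ^ (N + 3) with hq
  have hqN : N + 3 < q :=
    lt_of_lt_of_le (Nat.lt_two_pow_self) (Nat.pow_le_pow_left hprime.out.two_le _)
  set r := 4 * q with hr
  obtain ⟨M0, hM0⟩ := exists_nat_gt (2 ^ r / min δ 1)
  set M := M0 + 2 with hM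
  have hM2 : 2 ≤ M := by omega
  have hmin : 0 < min δ 1 := lt_min hδ one_pos
  have hdens : (2 : ℝ) ^ r / M ≤ min δ 1 := by
    have hMpos : (0 : ℝ) < M := by
      have : 0 < M := by omega
      exact_mod_cast this
    rw [div_lt_iff₀ hmin] at hM0
    rw [div_le_iff₀ hMpos]
    have : (M : ℝ) = M0 + 2 := by rw [hM]; push_cast; ring
    rw [this]
    nlinarith
  set H := blocks r M hM2 with hH
  set c : Fin M → F := fun s => if s.val = 0 then 1 else a0 with hc
  have hc0 : ∀ s, c s ≠ 0 := by
    intro s
    simp only [hc]
    split_ifs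
    · exact one_ne_zero
    · exact ha0
  set a : Finset (Fin r) → Option (Fin r) × Fin M → F := fun _ x => c x.2 with ha
  have hcoeff : H.IsCoeff a := fun _ x _ => hc0 x.2
  refine ⟨Option (Fin r) × Fin M, Finset (Fin r), inferInstance, inferInstance, inferInstance,
    H, a, blocks_injective r M hM2, hcoeff, ?_, ?_, ?_⟩
  · intro T
    refine ⟨(none, ⟨0, by omega⟩), ?_, (none, ⟨1, by omega⟩), ?_, ?_⟩
    · simp [hH, blocks]
    · simp [hH, blocks]
    · simp only [ha, hc, if_true]
      simpa using ha1.symm
  · exact (blocks_density r M hM2).trans (hdens.trans (min_le_left _ _))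
  · have h1 : ⌈H.edgeDensity⌉₊ ≤ 1 := by
      rw [Nat.ceil_le]
      push_cast
      exact (blocks_density r M hM2).trans (hdens.trans (min_le_right _ _))
    have h2 : q + 1 ≤ alonTarsi (H.poly a) := by
      refine le_alonTarsi _ (poly_ne_zero H a hcoeff) q ?_
      have h3 : H.poly a = ∏ T : Finset (Fin r), ∑ b ∈ Finset.insertNone T,
          ∑ s : Fin M, C (c s) * X (b, s) := by
        rw [Hypergraph.poly]
        refine Finset.prod_congr rfl (fun T _ => ?_)
        simp only [hH, blocks, ha]
        rw [Finset.sum_product]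
      rw [h3]
      refine prod_sum_mem _ (fun b => ∑ s : Fin M, C (c s) * X (b, s)) q ?_ _ ?_
      · intro b
        rw [hq, sum_pow_char_pow]
        refine Ideal.sum_mem _ (fun s _ => ?_)
        rw [mul_pow]
        exact Ideal.mul_mem_left _ _ (X_pow_mem _ _)
      · rw [Fintype.card_option, Fintype.card_fin, Fintype.card_finset, Fintype.card_fin, hr]
        have h4 : q + 1 ≤ 2 ^ q := Nat.lt_two_pow_self
        have h5 : (q + 1) ^ 4 ≤ 2 ^ (4 * q) := by
          calc (q + 1) ^ 4 ≤ (2 ^ q) ^ 4 := Nat.pow_le_pow_left h4 4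
            _ = 2 ^ (4 * q) := by rw [← pow_mul]; ring_nf
        have h6 : (4 * q + 1) * (q - 1) < (q + 1) ^ 4 := by
          have : (4 * q + 1) * (q - 1) ≤ (4 * q + 1) * q := Nat.mul_le_mul_left _ (Nat.sub_le _ _)
          nlinarith [pow_pos (show 0 < q by omega) 2, pow_pos (show 0 < q by omega) 3,
            pow_pos (show 0 < q by omega) 4]
        omega
    omega

end Pool.Agent.Results.MP_3821a3_co.PositiveCharacteristic
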